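import Pool.Agent.H95.GY.Targets

set_option autoImplicit false

open Filter Topology Set

universe u

namespace Pool.Agent.H95.GY2

open Pool.Agent.H95.GY

theorem pf_MET : T_MET.{u} := by
  intro E _ _ _ _ _ U hU
  obtain ⟨V, hVU, hVo, hV1⟩ := mem_nhds_iff.1 hU
  obtain ⟨f, hf0, hf1, -⟩ := exists_continuous_zero_one_of_isClosed (X := E) (s := Vᶜ) (t := {1})
    hVo.isClosed_compl isClosed_singleton (by
      rw [disjoint_singleton_right]; simpa using hV1)
  let N : Subgroup E :=
    { carrier := {x | ∀ a b : E, f (a * x * b) = f (a * b)}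
      one_mem' := by intro a b; simp
      mul_mem' := by
        intro x y hx hy a b
        have h1 : a * (x * y) * b = (a * x) * y * b := by group
        rw [h1, hy (a * x) b]
        exact hx a b
      inv_mem' := by
        intro x hx a b
        have := hx (a * x⁻¹) b
        rw [inv_mul_cancel_right] at this
        exact this.symm }
  have hNmem : ∀ x, x ∈ N ↔ ∀ a b : E, f (a * x * b) = f (a * b) := fun x => Iff.rfl
  have hNn : N.Normal := by
    refine ⟨fun x hx g => ?_⟩
    rw [hNmem] at hx ⊢
    intro a b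
    have h1 : a * (g * x * g⁻¹) * b = (a * g) * x * (g⁻¹ * b) := by group
    have h2 : a * b = (a * g) * (g⁻¹ * b) := by group
    rw [h1, h2]
    exact hx (a * g) (g⁻¹ * b)
  have hNc : IsClosed (N : Set E) := by
    have : (N : Set E) = ⋂ a : E, ⋂ b : E, {x | f (a * x * b) = f (a * b)} := by
      ext x
      simp only [SetLike.mem_coe, mem_iInter, mem_setOf_eq]
      exact hNmem x
    rw [this]
    refine isClosed_iInter fun a => isClosed_iInter fun b => ?_
    exact isClosed_eq (by fun_prop) continuous_const
  refine ⟨N, hNn, hNc, ?_, ?_⟩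
  · intro x hx
    have h1 := (hNmem x).1 hx 1 1
    simp only [one_mul, mul_one] at h1
    rw [hf1 (mem_singleton 1)] at h1
    by_contra hxU
    have h2 : x ∈ Vᶜ := fun h => hxU (hVU h)
    rw [hf0 h2] at h1
    exact zero_ne_one (α := ℝ) (by simpa using h1)
  · haveI := hNn
    haveI : T2Space (E ⧸ N) := by
      haveI : IsClosed (N : Set E) := hNc
      infer_instance
    haveI : CompactSpace (E ⧸ N) := Quotient.compactSpace
    let F0 : C(E × (E × E), ℝ) := ⟨fun p => f (p.2.1 * p.1 * p.2.2), by fun_prop⟩
    let F : C(E, C(E × E, ℝ)) := F0.curry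
    have hF : ∀ x p, F x p = f (p.1 * x * p.2) := fun _ _ => rfl
    have hFN : ∀ x y : E, x⁻¹ * y ∈ N → F x = F y := by
      intro x y h
      ext p
      rw [hF, hF]
      have h1 := (hNmem _).1 h (p.1 * x) p.2
      have h2 : p.1 * x * (x⁻¹ * y) * p.2 = p.1 * y * p.2 := by group
      rw [h2] at h1
      exact h1.symm
    have hFN' : ∀ x y : E, F x = F y → x⁻¹ * y ∈ N := by
      intro x y h
      rw [hNmem]
      intro a b
      have h1 := DFunLike.congr_fun h (a * x⁻¹, b)
      rw [hF, hF] at h1
      simp only [inv_mul_cancel_right] at h1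
      rw [h1, mul_assoc a x⁻¹ y]
    let Φ : E ⧸ N → C(E × E, ℝ) := Quotient.lift F (fun x y h => hFN x y (QuotientGroup.leftRel_apply.1 h))
    have hΦc : Continuous Φ := F.continuous.quotient_lift _
    have hΦi : Function.Injective Φ := by
      intro x y h
      obtain ⟨x, rfl⟩ := QuotientGroup.mk_surjective x
      obtain ⟨y, rfl⟩ := QuotientGroup.mk_surjective y
      exact QuotientGroup.eq.2 (hFN' x y h)
    have hemb : IsEmbedding Φ := (hΦc.isClosedEmbedding hΦi).isEmbedding
    letI : MetricSpace (E ⧸ N) := hemb.comapMetricSpace Φ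
    infer_instance

end Pool.Agent.H95.GY2
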