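import Pool.Agent.H95.GY.Targets
import Pool.Agent.H78.CM.Asm

set_option autoImplicit false

open Filter Topology Set Matrix

universe u

namespace Pool.Agent.H95.GY2

open Pool.Agent.H95.GY

theorem comb {E : Type u} [Group E] [TopologicalSpace E] {m n : ℕ}
    (σ : E →* Matrix (Fin m) (Fin m) ℝ) (τ : E →* Matrix (Fin n) (Fin n) ℝ)
    (hσ : Continuous σ) (hτ : Continuous τ) (hσo : ∀ g, (σ g).transpose * σ g = 1)
    (hτo : ∀ g, (τ g).transpose * τ g = 1) :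
    ∃ ρ : E →* Matrix (Fin (m + n)) (Fin (m + n)) ℝ, Continuous ρ ∧
      (∀ g, (ρ g).transpose * ρ g = 1) ∧ ∀ g, ρ g = 1 → σ g = 1 ∧ τ g = 1 := by
  let R : Matrix (Fin m ⊕ Fin n) (Fin m ⊕ Fin n) ℝ ≃ₐ[ℝ] Matrix (Fin (m + n)) (Fin (m + n)) ℝ :=
    Matrix.reindexAlgEquiv ℝ ℝ finSumFinEquiv
  have hR : ∀ A, R A = Matrix.submatrix A finSumFinEquiv.symm finSumFinEquiv.symm := fun A => rfl
  let B : E → Matrix (Fin m ⊕ Fin n) (Fin m ⊕ Fin n) ℝ := fun g => Matrix.fromBlocks (σ g) 0 0 (τ g)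
  have hB1 : B 1 = 1 := by
    show Matrix.fromBlocks (σ 1) 0 0 (τ 1) = 1
    rw [map_one, map_one, Matrix.fromBlocks_one]
  have hBm : ∀ g h, B (g * h) = B g * B h := by
    intro g h
    show Matrix.fromBlocks (σ (g * h)) 0 0 (τ (g * h)) = Matrix.fromBlocks (σ g) 0 0 (τ g) *
      Matrix.fromBlocks (σ h) 0 0 (τ h)
    rw [Matrix.fromBlocks_multiply, map_mul, map_mul]
    simp
  let ρ : E →* Matrix (Fin (m + n)) (Fin (m + n)) ℝ :=
    { toFun := fun g => R (B g)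
      map_one' := by rw [hB1, map_one]
      map_mul' := fun g h => by rw [hBm, map_mul] }
  have hρ : ∀ g, ρ g = R (B g) := fun _ => rfl
  refine ⟨ρ, ?_, ?_, ?_⟩
  · have h1 : Continuous B := by
      show Continuous fun g => Matrix.fromBlocks (σ g) 0 0 (τ g)
      exact hσ.matrix_fromBlocks continuous_const continuous_const hτ
    show Continuous fun g => Matrix.submatrix (B g) finSumFinEquiv.symm finSumFinEquiv.symm
    exact h1.matrix_submatrix _ _
  · intro g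
    rw [hρ, hR, Matrix.transpose_submatrix, ← hR, ← hR, ← map_mul]
    have h2 : (B g).transpose * B g = 1 := by
      show (Matrix.fromBlocks (σ g) 0 0 (τ g)).transpose * Matrix.fromBlocks (σ g) 0 0 (τ g) = 1
      rw [Matrix.fromBlocks_transpose, Matrix.fromBlocks_multiply]
      simp [hσo, hτo]
    rw [h2, map_one]
  · intro g hg
    rw [hρ] at hg
    have h3 : B g = 1 := R.injective (by rw [hg, map_one])
    have h4 : Matrix.fromBlocks (σ g) 0 0 (τ g) = Matrix.fromBlocks 1 0 0 1 := by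
      rw [Matrix.fromBlocks_one]; exact h3
    have h5 := Matrix.fromBlocks_inj.1 h4
    exact ⟨h5.1, h5.2.2.2⟩

theorem pf_PWK (hMET : T_MET.{u}) : T_PWK.{u} := by
  intro E _ _ _ _ _ U hU
  obtain ⟨V, hVU, hVo, hV1⟩ := mem_nhds_iff.1 hU
  obtain ⟨N, hNn, hNc, hNV, hsc⟩ := hMET E V (hVo.mem_nhds hV1)
  haveI := hNn
  haveI : IsClosed (N : Set E) := hNc
  haveI : T2Space (E ⧸ N) := inferInstance
  haveI : CompactSpace (E ⧸ N) := Quotient.compactSpace
  have key : ∃ (m : ℕ) (σ : E →* Matrix (Fin m) (Fin m) ℝ), Continuous σ ∧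
      (∀ g, (σ g).transpose * σ g = 1) ∧ ∀ g ∈ Vᶜ, σ g ≠ 1 := by
    refine IsCompact.induction_on (s := Vᶜ) (p := fun s => ∃ (m : ℕ)
      (σ : E →* Matrix (Fin m) (Fin m) ℝ), Continuous σ ∧
      (∀ g, (σ g).transpose * σ g = 1) ∧ ∀ g ∈ s, σ g ≠ 1) hVo.isClosed_compl.isCompact ?_ ?_ ?_ ?_
    · exact ⟨0, 1, continuous_const, fun g => Subsingleton.elim _ _, fun g hg => hg.elim⟩
    · rintro s t hst ⟨m, σ, h1, h2, h3⟩
      exact ⟨m, σ, h1, h2, fun g hg => h3 g (hst hg)⟩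
    · rintro s t ⟨m, σ, h1, h2, h3⟩ ⟨n, τ, h4, h5, h6⟩
      obtain ⟨ρ, h7, h8, h9⟩ := comb σ τ h1 h4 h2 h5
      refine ⟨m + n, ρ, h7, h8, ?_⟩
      rintro g (hg | hg) h
      · exact h3 g hg (h9 g h).1
      · exact h6 g hg (h9 g h).2
    · intro x hx
      have hx1 : (QuotientGroup.mk x : E ⧸ N) ≠ 1 := by
        intro h
        exact hx (hNV ((QuotientGroup.eq_one_iff x).1 h))
      obtain ⟨m, σ, h1, h2, h3⟩ := Pool.Agent.H78.CM.pw_all (E ⧸ N) (QuotientGroup.mk x) hx1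
      have hc : Continuous fun g : E => σ (QuotientGroup.mk g : E ⧸ N) :=
        h1.comp QuotientGroup.continuous_mk
      refine ⟨{g : E | σ (QuotientGroup.mk g : E ⧸ N) ≠ 1}, mem_nhdsWithin_of_mem_nhds
        ((isOpen_ne_fun hc continuous_const).mem_nhds h3), m + 1,
        σ.comp (QuotientGroup.mk' N), ?_, fun g => h2 _, fun g hg => hg⟩
      exact hc
  obtain ⟨m, σ, h1, h2, h3⟩ := key
  refine ⟨m, σ, h1, h2, fun g hg => ?_⟩
  by_contra hgU
  exact h3 g (fun h => hgU (hVU h)) hg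

end Pool.Agent.H95.GY2
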